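import Pool.Agent.T2H08.FQ.Bridge

/-!
# Abundance for klt pairs on quotients of flat bundles of products of projective spaces over tori

Let `T` be a complex torus of any dimension, projective or not, `E_0, ..., E_{c-1}` direct sums of flat
line bundles on `T`, of any ranks `r j + 1`, and `Y = P (E_0) ×_T ... ×_T P (E_{c-1})`, a bundle over `T`
with the fibre `F = P^{r 0} × ... × P^{r (c-1)}`. Let `X` be the quotient of `Y` by any finite group of
automorphisms which come from affine transformations of the universal cover `V` of `T` and unitary
transformations of the homogeneous coordinates of the factors of `F`; this group may contain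
reflections, so that `Y → X` may be ramified along divisors, both along images of hyperplanes of `V` and
along images of hyperplanes of the factors of `F`. Let `B` be an effective divisor with rational
coefficients on `X` such that the pair `(X, B)` is klt, and let `m (K_X + B)` be integral and Cartier. The
theorem says: if `K_X + B` is nef, it is semiample. (If `X` is projective this is the abundance
conjecture for `(X, B)`.)

The case that `F` is a point is the starting result `MP_9a2ae6_ag/TorusQuotientPairs`. If `Y → X` is not
ramified along divisors and `X` is projective, the theorem follows from the results on pairs which are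
fibred over varieties of maximal Albanese dimension. If `Y → X` is ramified, then the pullback of
`K_X + B` to `Y` is `K_Y + B'` with a divisor `B'` which need not be effective, and `X` may have no
holomorphic one-forms, so that there is no Albanese map of `X` to use.

The proof: `L = O_X (m (K_X + B))` has a meromorphic section with poles only on the branch divisor. Write
the section `β` which defines the pullback of `m B` to `V × F` as a polynomial in the coordinates of `F`
with coefficients which are holomorphic on `V`. Let `b` be a lattice vector in the kernel of the Chern
form which is fixed by the linear parts acting trivially modulo this kernel. Each coefficient `β_I ≠ 0`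
gives a meromorphic section on `V` of a line bundle whose poles are on mirrors, and Liouville's theorem
shows that the unitary character of `b` given by `L` along the constant section of `V × F` through a
coordinate point is a product of powers of the numbers `χ_s (b)` with which `b` multiplies the coordinates
of `F`, with exponents which depend on `I`. Comparing two coefficients gives relations between the
numbers `χ_s (b)`. The pair is klt: if all these relations hold for the one-parameter group of weight
`w`, a scaling argument for the integral of `|ρ σ|² / |β| ^ (2 / m)` shows that `w` is constant on the
coordinates of each factor, because `K_X + B` is nef and the integrals near the two ends of the flow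
would otherwise diverge at one of them. So bounded powers of the `χ_s (b)` agree in each factor,
and the character of `b` is a root of unity. Hence a power of `L` is base point free along the constant
sections; the products of such sections with monomials, and their norms, are the sections of powers
of `L`.

The definitions `Co`, `IsPt`, `mulBy`, `Trans`, `onV`, `onZ`, `jac`, `translations`, `IsFlatQuotient`,
`LineBundle`, `IsSection`, `IsSemiample`, `IsChernForm`, `IsNef`, `Fixes`, `same`, `ramIndex`, `lin`,
`form`, `IsHomog`, `IsRamification`, `IsEffective`, `IsLogPluricanonical` and `IsKlt` are in
`Pool.Agent.T2H08.FQ.Stmt`; `IsHermitian` is defined in `Pool.Agent.W594.SYZ.Defs2` and `IsNefForm` in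
`Pool.Agent.W594.SYZ.TQDefs`.
-/

set_option autoImplicit false

namespace Pool.Agent.Results.MP_e23cd6_ag.FlatQuotientPairs

open Pool.Agent.T2H08.FB

/-- Let `X = (V × F) / Γ` be a quotient by a finite group of a fibre product of projective bundles
`P (E_j)` over a complex torus, `E_j` a direct sum of flat unitary line bundles, `V = ℂ^n` and
`F = P^{r 0} × ... × P^{r (c - 1)}`. Let the entire function `ρ` on `V` and the polynomial `σ` define the
ramification divisor of `V × F → X`, let `β` define the pullback of the effective divisor `m B`, let
`(X, B)` be klt and `L = O_X (m (K_X + B))`, with the class `H + ∑ deg j ω_j`. If `K_X + B` is nef, then it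
is semiample. -/
theorem result {n c : ℕ} {r : Fin c → ℕ} (Γ : Subgroup (Trans n r)) (hΓ : IsFlatQuotient Γ)
    (ρ : (Fin n → ℂ) → ℂ) (σ : MvPolynomial (Co r) ℂ) (l : Fin c → ℕ)
    (hρ : IsRamification Γ ρ σ l) (m : ℕ) (hm : 1 ≤ m)
    (β : (Fin n → ℂ) → MvPolynomial (Co r) ℂ) (k : Fin c → ℕ) (hβ : IsEffective β k)
    (L : LineBundle Γ) (hL : IsLogPluricanonical L m ρ σ l β k) (hklt : IsKlt m ρ σ β)
    (H : (Fin n → ℂ) → (Fin n → ℂ) → ℂ) (hc : L.IsChernForm H) (hn : L.IsNef H) :
    L.IsSemiample :=
  semiample hΓ hρ hm hβ hL hklt hc hn

end Pool.Agent.Results.MP_e23cd6_ag.FlatQuotientPairs
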